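import Pool.Agent.N659.HB.Stm8

/-!
Covariances of the diagonal elements of the resolvent (part KB3 of the project SD).
-/

namespace Pool.Agent.N723.SD

open MeasureTheory Filter Pool.Agent.W792.LL Pool.Agent.W792.WA Pool.Agent.N659.HB
open scoped Topology ENNReal

noncomputable section

/-! ## Elementary inequalities -/

lemma nz_of_im {z : ℂ} {t y : ℝ} (hy : 0 < y) (h : y ≤ z.im) : (t : ℂ) - z ≠ 0 := by
  intro h0
  have h1 : ((t : ℂ) - z).im = 0 := by rw [h0]; simp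
  simp at h1
  linarith

lemma norm_ge {z : ℂ} {t y : ℝ} (h : y ≤ z.im) : y ≤ ‖(t : ℂ) - z‖ := by
  have h1 := Complex.abs_im_le_norm ((t : ℂ) - z)
  have h2 : ((t : ℂ) - z).im = - z.im := by simp
  rw [h2, abs_neg] at h1
  exact le_trans (le_trans h (le_abs_self _)) h1

lemma inv_le {z : ℂ} {t y : ℝ} (hy : 0 < y) (h : y ≤ z.im) : ‖1 / ((t : ℂ) - z)‖ ≤ 1 / y := by
  rw [norm_div, norm_one]
  exact one_div_le_one_div_of_le hy (norm_ge h)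

/-- Interpolation. -/
lemma interp {X A B : ℝ} (hX : 0 ≤ X) (hA : X ≤ A) (hB : X ≤ B) (hA1 : 1 ≤ A) :
    X ≤ A * B ^ (1 / 8 : ℝ) := by
  have h1 : X = X ^ (7 / 8 : ℝ) * X ^ (1 / 8 : ℝ) := by
    rcases hX.eq_or_lt with h | h
    · rw [← h]; norm_num
    · rw [← Real.rpow_add h]; norm_num
  have h2 : X ^ (7 / 8 : ℝ) ≤ A := by
    calc X ^ (7 / 8 : ℝ) ≤ A ^ (7 / 8 : ℝ) := Real.rpow_le_rpow hX hA (by norm_num)
      _ ≤ A ^ (1 : ℝ) := Real.rpow_le_rpow_of_exponent_le hA1 (by norm_num)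
      _ = A := Real.rpow_one A
  calc X = X ^ (7 / 8 : ℝ) * X ^ (1 / 8 : ℝ) := h1
    _ ≤ A * B ^ (1 / 8 : ℝ) := by
      apply mul_le_mul h2 (Real.rpow_le_rpow hX hB (by norm_num)) (by positivity) (by linarith)

/-- Interpolation of a bounded quantity. -/
lemma interp4 {X y : ℝ} (hy : 0 < y) (hX : 0 ≤ X) (hB : X ≤ 1 / y) :
    X ≤ y ^ (-(3 / 4) : ℝ) * X ^ (1 / 4 : ℝ) := by
  have h1 : X = X ^ (3 / 4 : ℝ) * X ^ (1 / 4 : ℝ) := by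
    rcases hX.eq_or_lt with h | h
    · rw [← h]; norm_num
    · rw [← Real.rpow_add h]; norm_num
  have h2 : X ^ (3 / 4 : ℝ) ≤ y ^ (-(3 / 4) : ℝ) := by
    calc X ^ (3 / 4 : ℝ) ≤ (1 / y) ^ (3 / 4 : ℝ) := Real.rpow_le_rpow hX hB (by norm_num)
      _ = y ^ (-(3 / 4) : ℝ) := by
        rw [one_div, Real.inv_rpow hy.le, Real.rpow_neg hy.le]
  calc X = X ^ (3 / 4 : ℝ) * X ^ (1 / 4 : ℝ) := h1
    _ ≤ _ := by
      apply mul_le_mul_of_nonneg_right h2 (by positivity)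

lemma pw2 {q D y : ℝ} (hy : 0 < y) (hq : 0 ≤ q) (hD : 0 < D) (h : y * q ^ 2 ≤ D) :
    q ^ 2 * (1 / D) ≤ y ^ (-(3 / 4) : ℝ) * ((q ^ (1 / 2 : ℝ) + (q / D) ^ (1 / 2 : ℝ)) / 2) := by
  have h1 : q ^ 2 * (1 / D) ≤ 1 / y := by
    rw [mul_one_div, div_le_div_iff₀ hD hy]
    linarith
  have h0 : 0 ≤ q ^ 2 * (1 / D) := by positivity
  refine le_trans (interp4 hy h0 h1) ?_
  apply mul_le_mul_of_nonneg_left _ (by positivity)
  have h2 : (q ^ 2 * (1 / D)) ^ (1 / 4 : ℝ)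
      = (q ^ (1 / 2 : ℝ)) ^ (1 / 2 : ℝ) * ((q / D) ^ (1 / 2 : ℝ)) ^ (1 / 2 : ℝ) := by
    rw [← Real.rpow_mul hq, ← Real.rpow_mul (by positivity), ← Real.mul_rpow hq (by positivity)]
    congr 1
    · field_simp
    · norm_num
  rw [h2]
  have h3 := Real.geom_mean_le_arith_mean2_weighted (w₁ := 1 / 2) (w₂ := 1 / 2)
    (p₁ := q ^ (1 / 2 : ℝ)) (p₂ := (q / D) ^ (1 / 2 : ℝ)) (by norm_num) (by norm_num)
    (by positivity) (by positivity) (by norm_num)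
  linarith

lemma pw3 {A B D ρ : ℝ} (hA : 0 ≤ A) (hB : 0 ≤ B) (hD : 0 ≤ D) (hρ : 0 < ρ) :
    A ^ (1 / 4 : ℝ) * B ^ (1 / 4 : ℝ) * D ^ (1 / 2 : ℝ)
      ≤ ρ ^ (1 / 2 : ℝ) * (1 / 4 * (A / ρ) + 1 / 4 * (B / ρ) + 1 / 2 * D) := by
  have h3 := Real.geom_mean_le_arith_mean3_weighted (w₁ := 1 / 4) (w₂ := 1 / 4) (w₃ := 1 / 2)
    (p₁ := A / ρ) (p₂ := B / ρ) (p₃ := D) (by norm_num) (by norm_num) (by norm_num)
    (by positivity) (by positivity) hD (by norm_num)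
  have h4 : A ^ (1 / 4 : ℝ) * B ^ (1 / 4 : ℝ) * D ^ (1 / 2 : ℝ)
      = ρ ^ (1 / 2 : ℝ) * ((A / ρ) ^ (1 / 4 : ℝ) * (B / ρ) ^ (1 / 4 : ℝ) * D ^ (1 / 2 : ℝ)) := by
    rw [Real.div_rpow hA hρ.le, Real.div_rpow hB hρ.le]
    have h5 : ρ ^ (1 / 2 : ℝ) = ρ ^ (1 / 4 : ℝ) * ρ ^ (1 / 4 : ℝ) := by
      rw [← Real.rpow_add hρ]; norm_num
    rw [h5]
    have h6 : ρ ^ (1 / 4 : ℝ) ≠ 0 := (Real.rpow_pos_of_pos hρ _).ne'
    field_simp
  rw [h4]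
  exact mul_le_mul_of_nonneg_left h3 (by positivity)

/-- Comparison of powers. -/
lemma pwy {y s : ℝ} (hy : 0 < y) (hy2 : y ≤ 2) (hs0 : 0 ≤ s) (hs : s ≤ 15 / 16) :
    y ^ (-s) ≤ 2 * y ^ (-(15 / 16) : ℝ) := by
  have h1 : y ^ (-s) = y ^ (15 / 16 - s) * y ^ (-(15 / 16) : ℝ) := by
    rw [← Real.rpow_add hy]; congr 1; ring
  have h2 : y ^ (15 / 16 - s) ≤ 2 := by
    calc y ^ (15 / 16 - s) ≤ 2 ^ (15 / 16 - s) := Real.rpow_le_rpow hy.le hy2 (by linarith)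
      _ ≤ 2 ^ (1 : ℝ) := Real.rpow_le_rpow_of_exponent_le (by norm_num) (by linarith)
      _ = 2 := by norm_num
  rw [h1]
  exact mul_le_mul_of_nonneg_right h2 (by positivity)

/-! ## The facts about one set of parameters -/

/-- The facts used about one set of parameters. -/
structure Kx (d : ℕ) (w γ : ℝ) (ζ : ℂ) (C₁ : ℝ) : Prop where
  hw : 0 < w
  hy : 0 < ζ.im
  hy2 : ζ.im ≤ 2
  mZ : ∀ x : Fin d → ℤ, Measurable fun v => Zx (d := d) w γ ζ x v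
  mQ : ∀ x a : Fin d → ℤ, Measurable fun v => Qx (d := d) w γ ζ x a v
  bQ : ∃ C : ℝ, ∀ x a v, ‖Qx (d := d) w γ ζ x a v‖ ≤ C
  sym : ∀ v x y, ge (d := d) w γ ζ v x y = ge w γ ζ v y x
  Qs : ∀ (x : Fin d → ℤ) (v : (Fin d → ℤ) → ℝ), Qx w γ ζ x x v = 1
  imQ : ∀ (x a : Fin d → ℤ) (v : (Fin d → ℤ) → ℝ),
    ζ.im * ‖Qx w γ ζ x a v‖ ^ 2 ≤ (Zx w γ ζ x v).im
  upZ : ∀ (x : Fin d → ℤ) (v : (Fin d → ℤ) → ℝ) (t : ℝ),
    Zx w γ ζ x (Function.update v x t) = Zx w γ ζ x v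
  upQ : ∀ (x a : Fin d → ℤ) (v : (Fin d → ℤ) → ℝ) (t : ℝ),
    Qx w γ ζ x a (Function.update v x t) = Qx w γ ζ x a v
  res : ∀ (x a : Fin d → ℤ) (v : (Fin d → ℤ) → ℝ) (t : ℝ), |t| ≤ w →
    ge w γ ζ (Function.update v x t) x a = Qx w γ ζ x a v / ((t : ℂ) - Zx w γ ζ x v)
  res2 : ∀ (x : Fin d → ℤ) (v : (Fin d → ℤ) → ℝ) (t : ℝ) (a b : Fin d → ℤ), |t| ≤ w →
    ge w γ ζ (Function.update v x t) a b
        = ge w γ ζ (Function.update v x w) a b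
          - ((t - w : ℝ) : ℂ) * ge w γ ζ (Function.update v x w) a x
            * ge w γ ζ (Function.update v x t) x b
  cone : 1 ≤ C₁
  u1 : ∀ z : ℂ, ζ.im ≤ z.im →
    ∫ t, 1 / ‖(t : ℂ) - z‖ ∂(unif w) ≤ C₁ * ζ.im ^ (-(1 / 16) : ℝ)
  u2 : ∀ z : ℂ, 0 < z.im → ∫ t, (1 / ‖(t : ℂ) - z‖) ^ (1 / 2 : ℝ) ∂(unif w) ≤ C₁
  u3 : ∀ z z' : ℂ, ζ.im ≤ z.im → ζ.im ≤ z'.im →
    ‖hu w z - hu w z'‖ ≤ C₁ / ζ.im * ‖z - z'‖

lemma mkKx (hRK : S_RK) {d : ℕ} {w γ : ℝ} {ζ : ℂ} (hw : 0 < w) (hγ : 0 ≤ γ) (hy : 0 < ζ.im)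
    (hy2 : ζ.im ≤ 2) {C₁ : ℝ} (hC : 1 ≤ C₁)
    (h1 : ∀ (ζ : ℂ) (y : ℝ), 0 < y → y ≤ 2 → y ≤ ζ.im →
      ∫ t, 1 / ‖(t : ℂ) - ζ‖ ∂(unif w) ≤ C₁ * y ^ (-(1 / 16) : ℝ))
    (h2 : ∀ ζ : ℂ, 0 < ζ.im → ∫ t, (1 / ‖(t : ℂ) - ζ‖) ^ (1 / 2 : ℝ) ∂(unif w) ≤ C₁)
    (h3 : ∀ (ζ ζ' : ℂ) (y : ℝ), 0 < y → y ≤ ζ.im → y ≤ ζ'.im →
      ‖hu w ζ - hu w ζ'‖ ≤ C₁ / y * ‖ζ - ζ'‖) : Kx d w γ ζ C₁ := by
  obtain ⟨a1, a2, a3, a4, a5⟩ := hRK d w γ ζ hw hγ hy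
  refine ⟨hw, hy, hy2, a1, a2, a3, fun v x y => (a4 v x y).1, fun x v => (a5 x v).1, ?_,
    fun x v t => ((a5 x v).2.2.2.1 t).1, fun x a v t => ((a5 x v).2.2.2.1 t).2 a,
    fun x a v t ht => (a5 x v).2.2.2.2.1 t a ht,
    fun x v t a b ht => (a5 x v).2.2.2.2.2.1 t a b ht, hC, fun z hz => h1 z _ hy hy2 hz, h2,
    fun z z' hz hz' => h3 z z' _ hy hz hz'⟩
  intro x a v
  rw [(a5 x v).2.2.1]
  apply mul_le_mul_of_nonneg_left _ hy.le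
  exact (a5 x v).2.1.le_tsum a (fun _ _ => by positivity)

namespace Kx

variable {d : ℕ} {w γ : ℝ} {ζ : ℂ} {C₁ : ℝ}

lemma imZ (K : Kx d w γ ζ C₁) (x : Fin d → ℤ) (v : (Fin d → ℤ) → ℝ) :
    ζ.im ≤ (Zx w γ ζ x v).im := by
  have := K.imQ x x v
  rw [K.Qs] at this
  simpa using this

lemma nz (K : Kx d w γ ζ C₁) (x : Fin d → ℤ) (v : (Fin d → ℤ) → ℝ) (t : ℝ) :
    (t : ℂ) - Zx w γ ζ x v ≠ 0 := nz_of_im K.hy (K.imZ x v)

lemma mU (x : Fin d → ℤ) (t : ℝ) :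
    Measurable fun v : (Fin d → ℤ) → ℝ => Function.update v x t := measurable_update_left

lemma mZu (K : Kx d w γ ζ C₁) (x b : Fin d → ℤ) (t : ℝ) :
    Measurable fun v => Zx (d := d) w γ ζ x (Function.update v b t) :=
  (K.mZ x).comp (mU b t)

lemma mQu (K : Kx d w γ ζ C₁) (x a b : Fin d → ℤ) (t : ℝ) :
    Measurable fun v => Qx (d := d) w γ ζ x a (Function.update v b t) :=
  (K.mQ x a).comp (mU b t)

lemma mev (x : Fin d → ℤ) : Measurable fun v : (Fin d → ℤ) → ℝ => ((v x : ℝ) : ℂ) :=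
  Complex.measurable_ofReal.comp (measurable_pi_apply x)

lemma mhu [IsProbabilityMeasure (unif w)] {f : ((Fin d → ℤ) → ℝ) → ℂ} (hf : Measurable f) :
    Measurable fun v => hu w (f v) := by
  unfold hu
  apply StronglyMeasurable.measurable
  apply StronglyMeasurable.integral_prod_right
    (f := fun (v : (Fin d → ℤ) → ℝ) (t : ℝ) => 1 / ((t : ℂ) - f v))
  apply Measurable.stronglyMeasurable
  have h1 : Measurable fun p : ((Fin d → ℤ) → ℝ) × ℝ => ((p.2 : ℝ) : ℂ) - f p.1 :=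
    (Complex.measurable_ofReal.comp measurable_snd).sub (hf.comp measurable_fst)
  exact measurable_const.div h1

lemma hub (K : Kx d w γ ζ C₁) {z : ℂ} (hz : ζ.im ≤ z.im) :
    ‖hu w z‖ ≤ C₁ * ζ.im ^ (-(1 / 16) : ℝ) := by
  refine le_trans ?_ (K.u1 z hz)
  unfold hu
  refine le_trans (norm_integral_le_integral_norm _) (le_of_eq ?_)
  congr 1
  ext t
  rw [norm_div, norm_one]

/-- Almost surely the potential at a site is in the support. -/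
lemma ae_le (hRS : S_RS) [IsProbabilityMeasure (unif w)] (x : Fin d → ℤ) :
    ∀ᵐ v ∂(Pn (unif w) (Fin d → ℤ)), |v x| ≤ w := by
  have hT := hRS (unif w) d x
  rw [← hT.map_eq]
  have hm : MeasurableSet {v : (Fin d → ℤ) → ℝ | |v x| ≤ w} :=
    measurableSet_le ((measurable_pi_apply x).abs) measurable_const
  rw [ae_map_iff hT.measurable.aemeasurable hm]
  have h1 : ∀ᵐ t ∂(unif w), |t| ≤ w := by
    unfold unif
    apply Measure.ae_smul_measure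
    filter_upwards [ae_restrict_mem measurableSet_Icc] with t ht
    exact abs_le.mpr ht
  have h2 := (Measure.quasiMeasurePreserving_snd (μ := Pn (unif w) (Fin d → ℤ))
    (ν := unif w)).ae h1
  filter_upwards [h2] with p hp
  simpa using hp

/-- Resampling. -/
lemma resamp (hRS : S_RS) [IsProbabilityMeasure (unif w)] {E : Type*} [NormedAddCommGroup E]
    [NormedSpace ℝ E] [CompleteSpace E] (x : Fin d → ℤ) (F : ((Fin d → ℤ) → ℝ) → E)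
    (hF : Integrable F (Pn (unif w) (Fin d → ℤ))) :
    ∫ v, F v ∂(Pn (unif w) (Fin d → ℤ))
      = ∫ v, ∫ t, F (Function.update v x t) ∂(unif w) ∂(Pn (unif w) (Fin d → ℤ)) := by
  have hT := hRS (unif w) d x
  have h1 := integral_map hT.measurable.aemeasurable (f := F)
    (by rw [hT.map_eq]; exact hF.aestronglyMeasurable)
  rw [hT.map_eq] at h1
  rw [h1]
  have h2 : Integrable (fun p : ((Fin d → ℤ) → ℝ) × ℝ => F (Function.update p.1 x p.2))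
      ((Pn (unif w) (Fin d → ℤ)).prod (unif w)) :=
    (hT.integrable_comp hF.aestronglyMeasurable).mpr hF
  rw [integral_prod _ h2]

lemma bdI [IsProbabilityMeasure (unif w)] {E : Type*} [NormedAddCommGroup E]
    {F : ((Fin d → ℤ) → ℝ) → E} (hF : AEStronglyMeasurable F (Pn (unif w) (Fin d → ℤ))) (C : ℝ)
    (hC : ∀ v, ‖F v‖ ≤ C) : Integrable F (Pn (unif w) (Fin d → ℤ)) :=
  Integrable.of_bound hF C (ae_of_all _ hC)

/-! ### The functions of the configuration -/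

/-- `g_a`. -/
def ga (w γ : ℝ) (ζ : ℂ) (a : Fin d → ℤ) (v : (Fin d → ℤ) → ℝ) : ℂ :=
  1 / (((v a : ℝ) : ℂ) - Zx w γ ζ a v)

/-- `g_b` with `v_a` replaced by `w`. -/
def gu (w γ : ℝ) (ζ : ℂ) (a b : Fin d → ℤ) (v : (Fin d → ℤ) → ℝ) : ℂ :=
  1 / (((v b : ℝ) : ℂ) - Zx w γ ζ b (Function.update v a w))

/-- `G_ab`. -/
def gab (w γ : ℝ) (ζ : ℂ) (a b : Fin d → ℤ) (v : (Fin d → ℤ) → ℝ) : ℂ :=
  Qx w γ ζ a b v / (((v a : ℝ) : ℂ) - Zx w γ ζ a v)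

/-- `G_ab` with `v_a` replaced by `w`. -/
def gab1 (w γ : ℝ) (ζ : ℂ) (a b : Fin d → ℤ) (v : (Fin d → ℤ) → ℝ) : ℂ :=
  Qx w γ ζ a b v / ((w : ℂ) - Zx w γ ζ a v)

/-- `hu Z_a`. -/
def ha (w γ : ℝ) (ζ : ℂ) (a : Fin d → ℤ) (v : (Fin d → ℤ) → ℝ) : ℂ := hu w (Zx w γ ζ a v)

/-- `hu Z_a` with `v_b` replaced by `w`. -/
def hab (w γ : ℝ) (ζ : ℂ) (a b : Fin d → ℤ) (v : (Fin d → ℤ) → ℝ) : ℂ :=
  hu w (Zx w γ ζ a (Function.update v b w))

lemma m_ga (K : Kx d w γ ζ C₁) (a : Fin d → ℤ) : Measurable (ga w γ ζ a) := by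
  unfold ga
  exact measurable_const.div ((mev a).sub (K.mZ a))

lemma m_gu (K : Kx d w γ ζ C₁) (a b : Fin d → ℤ) : Measurable (gu w γ ζ a b) := by
  unfold gu
  exact measurable_const.div ((mev b).sub (K.mZu b a w))

lemma m_gab (K : Kx d w γ ζ C₁) (a b : Fin d → ℤ) : Measurable (gab w γ ζ a b) := by
  unfold gab
  exact (K.mQ a b).div ((mev a).sub (K.mZ a))

lemma m_gab1 (K : Kx d w γ ζ C₁) (a b : Fin d → ℤ) : Measurable (gab1 w γ ζ a b) := by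
  unfold gab1
  exact (K.mQ a b).div (measurable_const.sub (K.mZ a))

lemma m_ha [IsProbabilityMeasure (unif w)] (K : Kx d w γ ζ C₁) (a : Fin d → ℤ) :
    Measurable (ha w γ ζ a) := by
  unfold ha
  exact mhu (K.mZ a)

lemma m_hab [IsProbabilityMeasure (unif w)] (K : Kx d w γ ζ C₁) (a b : Fin d → ℤ) :
    Measurable (hab w γ ζ a b) := by
  unfold hab
  exact mhu (K.mZu a b w)

lemma b_ga (K : Kx d w γ ζ C₁) (a : Fin d → ℤ) (v) : ‖ga w γ ζ a v‖ ≤ 1 / ζ.im :=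
  inv_le K.hy (K.imZ a v)

lemma b_gu (K : Kx d w γ ζ C₁) (a b : Fin d → ℤ) (v) : ‖gu w γ ζ a b v‖ ≤ 1 / ζ.im :=
  inv_le K.hy (K.imZ b _)

lemma b_ha (K : Kx d w γ ζ C₁) (a : Fin d → ℤ) (v) :
    ‖ha w γ ζ a v‖ ≤ C₁ * ζ.im ^ (-(1 / 16) : ℝ) := K.hub (K.imZ a v)

lemma b_hab (K : Kx d w γ ζ C₁) (a b : Fin d → ℤ) (v) :
    ‖hab w γ ζ a b v‖ ≤ C₁ * ζ.im ^ (-(1 / 16) : ℝ) := K.hub (K.imZ a _)

lemma b_gab (K : Kx d w γ ζ C₁) : ∃ C : ℝ, 0 ≤ C ∧ ∀ (a b : Fin d → ℤ) v,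
    ‖Qx w γ ζ a b v‖ ≤ C ∧ ‖gab w γ ζ a b v‖ ≤ C * (1 / ζ.im) ∧
    ‖gab1 w γ ζ a b v‖ ≤ C * (1 / ζ.im) := by
  obtain ⟨C, hC⟩ := K.bQ
  have h0 : 0 ≤ C := le_trans (norm_nonneg _) (hC 0 0 0)
  refine ⟨C, h0, fun a b v => ⟨hC a b v, ?_, ?_⟩⟩
  · unfold gab
    rw [div_eq_mul_one_div, norm_mul]
    exact mul_le_mul (hC a b v) (inv_le K.hy (K.imZ a v)) (norm_nonneg _) h0
  · unfold gab1
    rw [div_eq_mul_one_div, norm_mul]
    exact mul_le_mul (hC a b v) (inv_le K.hy (K.imZ a v)) (norm_nonneg _) h0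

/-- Identification of the matrix elements. -/
lemma ge_aa (K : Kx d w γ ζ C₁) (a b : Fin d → ℤ) (v : (Fin d → ℤ) → ℝ) (hv : |v a| ≤ w) :
    ge w γ ζ v a b = gab w γ ζ a b v := by
  have h := K.res a b v (v a) hv
  rw [Function.update_eq_self] at h
  exact h

lemma ge_self (K : Kx d w γ ζ C₁) (a : Fin d → ℤ) (v : (Fin d → ℤ) → ℝ) (hv : |v a| ≤ w) :
    ge w γ ζ v a a = ga w γ ζ a v := by
  rw [K.ge_aa a a v hv, gab, ga, K.Qs]

lemma ge_up (K : Kx d w γ ζ C₁) (a b : Fin d → ℤ) (v : (Fin d → ℤ) → ℝ) :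
    ge w γ ζ (Function.update v a w) a b = gab1 w γ ζ a b v :=
  K.res a b v w (by rw [abs_of_pos K.hw])

lemma ge_gu (K : Kx d w γ ζ C₁) {a b : Fin d → ℤ} (hab : a ≠ b) (v : (Fin d → ℤ) → ℝ)
    (hv : |v b| ≤ w) : ge w γ ζ (Function.update v a w) b b = gu w γ ζ a b v := by
  have h1 : Function.update v a w b = v b := Function.update_of_ne hab.symm _ _
  rw [K.ge_self b _ (by rw [h1]; exact hv), ga, gu, h1]

/-- The identity (I). -/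
lemma idI (K : Kx d w γ ζ C₁) {a b : Fin d → ℤ} (hab : a ≠ b) (v : (Fin d → ℤ) → ℝ)
    (hva : |v a| ≤ w) (hvb : |v b| ≤ w) :
    ge w γ ζ v a a * ge w γ ζ v b b
      = ga w γ ζ a v * gu w γ ζ a b v + gab w γ ζ a b v ^ 2 - gab1 w γ ζ a b v * gab w γ ζ a b v := by
  have h1 := K.res2 a v (v a) b b hva
  rw [Function.update_eq_self] at h1
  rw [h1, K.ge_gu hab v hvb, K.sym _ b a, K.ge_up, K.ge_aa a b v hva, K.ge_self a v hva]
  unfold gab gab1 ga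
  have h2 := K.nz a v (v a)
  have h3 := K.nz a v w
  push_cast
  field_simp
  ring

/-- The difference of the `Z`. -/
lemma difZ (K : Kx d w γ ζ C₁) {a b : Fin d → ℤ} (hab : a ≠ b) (v : (Fin d → ℤ) → ℝ)
    (hva : |v a| ≤ w) (hvb : |v b| ≤ w) :
    Zx w γ ζ a v - Zx w γ ζ a (Function.update v b w)
      = -((v b - w : ℝ) : ℂ) * Qx w γ ζ a b (Function.update v b w) * Qx w γ ζ a b v := by
  have h1 := K.res2 b v (v b) a a hvb
  rw [Function.update_eq_self] at h1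
  have hu : Function.update v b w a = v a := Function.update_of_ne hab _ _
  rw [K.ge_self a v hva, K.ge_self a _ (by rw [hu]; exact hva), K.sym v b a,
    K.ge_aa a b v hva, K.ge_aa a b _ (by rw [hu]; exact hva)] at h1
  unfold ga gab at h1
  rw [hu] at h1
  have h2 := K.nz a v (v a)
  have h3 := K.nz a (Function.update v b w) (v a)
  field_simp at h1
  linear_combination h1

/-! ### The integrals -/

lemma mUp {a b : Fin d → ℤ} (hab : a ≠ b) (v : (Fin d → ℤ) → ℝ) (t : ℝ) :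
    Function.update (Function.update v b t) a w = Function.update (Function.update v a w) b t :=
  Function.update_comm hab.symm _ _ _

lemma gu_a {a b : Fin d → ℤ} (hab : a ≠ b) (v : (Fin d → ℤ) → ℝ) (t : ℝ) :
    gu w γ ζ a b (Function.update v a t) = gu w γ ζ a b v := by
  unfold gu
  rw [Function.update_idem, Function.update_of_ne hab.symm]

lemma gu_b (K : Kx d w γ ζ C₁) {a b : Fin d → ℤ} (hab : a ≠ b) (v : (Fin d → ℤ) → ℝ) (t : ℝ) :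
    gu w γ ζ a b (Function.update v b t)
      = 1 / ((t : ℂ) - Zx w γ ζ b (Function.update v a w)) := by
  unfold gu
  rw [Function.update_self, mUp hab, K.upZ]

lemma hab_b (a b : Fin d → ℤ) (v : (Fin d → ℤ) → ℝ) (t : ℝ) :
    hab w γ ζ a b (Function.update v b t) = hab w γ ζ a b v := by
  unfold hab
  rw [Function.update_idem]

/-- Integrability of products of bounded functions. -/
lemma prI [IsProbabilityMeasure (unif w)] {f g : ((Fin d → ℤ) → ℝ) → ℂ} (hf : Measurable f)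
    (hg : Measurable g) {A B : ℝ} (hA : ∀ v, ‖f v‖ ≤ A) (hB : ∀ v, ‖g v‖ ≤ B) :
    Integrable (fun v => f v * g v) (Pn (unif w) (Fin d → ℤ)) := by
  apply bdI (hf.mul hg).aestronglyMeasurable (A * B)
  intro v
  change ‖f v * g v‖ ≤ A * B
  rw [norm_mul]
  exact mul_le_mul (hA v) (hB v) (norm_nonneg _) (le_trans (norm_nonneg _) (hA v))

lemma prN [IsProbabilityMeasure (unif w)] {f g : ((Fin d → ℤ) → ℝ) → ℂ} (hf : Measurable f)
    (hg : Measurable g) {A B : ℝ} (hA : ∀ v, ‖f v‖ ≤ A) (hB : ∀ v, ‖g v‖ ≤ B) :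
    Integrable (fun v => ‖f v‖ * ‖g v‖) (Pn (unif w) (Fin d → ℤ)) := by
  apply bdI (hf.norm.mul hg.norm).aestronglyMeasurable (A * B)
  intro v
  change ‖‖f v‖ * ‖g v‖‖ ≤ A * B
  rw [Real.norm_of_nonneg (by positivity)]
  exact mul_le_mul (hA v) (hB v) (norm_nonneg _) (le_trans (norm_nonneg _) (hA v))

lemma sqI [IsProbabilityMeasure (unif w)] {f : ((Fin d → ℤ) → ℝ) → ℂ} (hf : Measurable f)
    {A : ℝ} (hA : ∀ v, ‖f v‖ ≤ A) :
    Integrable (fun v => ‖f v‖ ^ (1 / 2 : ℝ)) (Pn (unif w) (Fin d → ℤ)) := by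
  apply bdI ((hf.norm).pow_const _).aestronglyMeasurable (A ^ (1 / 2 : ℝ))
  intro v
  rw [Real.norm_of_nonneg (by positivity)]
  exact Real.rpow_le_rpow (norm_nonneg _) (hA v) (by norm_num)

/-- (II), first part. -/
lemma IIa (hRS : S_RS) [IsProbabilityMeasure (unif w)] (K : Kx d w γ ζ C₁) {a b : Fin d → ℤ}
    (hne : a ≠ b) :
    ∫ v, ga w γ ζ a v * gu w γ ζ a b v ∂(Pn (unif w) (Fin d → ℤ))
      = ∫ v, ha w γ ζ a v * gu w γ ζ a b v ∂(Pn (unif w) (Fin d → ℤ)) := by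
  rw [resamp hRS a _ (prI (K.m_ga a) (K.m_gu a b) (K.b_ga a) (K.b_gu a b))]
  apply integral_congr_ae
  filter_upwards with v
  have h1 : (fun t : ℝ => ga w γ ζ a (Function.update v a t) * gu w γ ζ a b (Function.update v a t))
      = fun t : ℝ => 1 / ((t : ℂ) - Zx w γ ζ a v) * gu w γ ζ a b v := by
    ext t
    rw [gu_a hne, ga, Function.update_self, K.upZ]
  rw [h1, integral_mul_const]
  rfl

/-- (II), second part. -/
lemma IIb (hRS : S_RS) [IsProbabilityMeasure (unif w)] (K : Kx d w γ ζ C₁) {a b : Fin d → ℤ}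
    (hne : a ≠ b) :
    ∫ v, hab w γ ζ a b v * gu w γ ζ a b v ∂(Pn (unif w) (Fin d → ℤ))
      = ∫ v, hab w γ ζ a b v * hab w γ ζ b a v ∂(Pn (unif w) (Fin d → ℤ)) := by
  rw [resamp hRS b _ (prI (K.m_hab a b) (K.m_gu a b) (K.b_hab a b) (K.b_gu a b))]
  apply integral_congr_ae
  filter_upwards with v
  have h1 : (fun t : ℝ => hab w γ ζ a b (Function.update v b t)
        * gu w γ ζ a b (Function.update v b t))
      = fun t : ℝ => hab w γ ζ a b v * (1 / ((t : ℂ) - Zx w γ ζ b (Function.update v a w))) := by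
    ext t
    rw [K.gu_b hne, hab_b]
  rw [h1, integral_const_mul]
  rfl

lemma guI (hRS : S_RS) [IsProbabilityMeasure (unif w)] (K : Kx d w γ ζ C₁) {a b : Fin d → ℤ}
    (hne : a ≠ b) :
    ∫ v, ‖gu w γ ζ a b v‖ ^ (1 / 2 : ℝ) ∂(Pn (unif w) (Fin d → ℤ)) ≤ C₁ := by
  rw [resamp hRS b _ (sqI (K.m_gu a b) (K.b_gu a b))]
  have h2 : ∫ _ : (Fin d → ℤ) → ℝ, C₁ ∂(Pn (unif w) (Fin d → ℤ)) = C₁ := by simp
  rw [← h2]
  apply integral_mono_of_nonneg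
  · exact ae_of_all _ fun v => integral_nonneg fun t => by positivity
  · exact integrable_const _
  · refine ae_of_all _ fun v => ?_
    refine le_trans (le_of_eq (integral_congr_ae (ae_of_all _ fun t => ?_)))
      (K.u2 (Zx w γ ζ b (Function.update v a w)) (lt_of_lt_of_le K.hy (K.imZ _ _)))
    simp only []
    rw [K.gu_b hne, norm_div, norm_one]

/-- The term `E |G_ab^[a] G_ab|`. -/
lemma T2 (hRS : S_RS) [IsProbabilityMeasure (unif w)] (K : Kx d w γ ζ C₁) (a b : Fin d → ℤ)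
    {ρ C : ℝ}
    (h1 : ∫ v, ‖Qx w γ ζ a b v‖ ^ (1 / 2 : ℝ) ∂(Pn (unif w) (Fin d → ℤ)) ≤ ρ)
    (h2 : ∫ v, ‖gab1 w γ ζ a b v‖ ^ (1 / 2 : ℝ) ∂(Pn (unif w) (Fin d → ℤ)) ≤ C * ρ) :
    ∫ v, ‖gab1 w γ ζ a b v‖ * ‖gab w γ ζ a b v‖ ∂(Pn (unif w) (Fin d → ℤ))
      ≤ C₁ * ζ.im ^ (-(1 / 16) : ℝ) * (ζ.im ^ (-(3 / 4) : ℝ) * ((ρ + C * ρ) / 2)) := by
  obtain ⟨B, hB0, hB⟩ := K.b_gab
  have i1 := sqI (w := w) (K.mQ a b) (fun v => (hB a b v).1)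
  have i2 := sqI (w := w) (K.m_gab1 a b) (fun v => (hB a b v).2.2)
  have hM : 0 ≤ C₁ * ζ.im ^ (-(1 / 16) : ℝ) :=
    mul_nonneg (le_trans zero_le_one K.cone) (Real.rpow_nonneg K.hy.le _)
  have hy4 : 0 ≤ ζ.im ^ (-(3 / 4) : ℝ) := Real.rpow_nonneg K.hy.le _
  rw [resamp hRS a _ (prN (K.m_gab1 a b) (K.m_gab a b) (fun v => (hB a b v).2.2)
    (fun v => (hB a b v).2.1))]
  have h3 : ∫ v, C₁ * ζ.im ^ (-(1 / 16) : ℝ) * (ζ.im ^ (-(3 / 4) : ℝ) *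
      ((‖Qx w γ ζ a b v‖ ^ (1 / 2 : ℝ) + ‖gab1 w γ ζ a b v‖ ^ (1 / 2 : ℝ)) / 2))
      ∂(Pn (unif w) (Fin d → ℤ))
      ≤ C₁ * ζ.im ^ (-(1 / 16) : ℝ) * (ζ.im ^ (-(3 / 4) : ℝ) * ((ρ + C * ρ) / 2)) := by
    rw [integral_const_mul, integral_const_mul, integral_div, integral_add i1 i2]
    gcongr
  refine le_trans (integral_mono_of_nonneg ?_ ?_ ?_) h3
  · exact ae_of_all _ fun v => integral_nonneg fun t => by positivity
  · exact (((i1.add i2).div_const 2).const_mul _).const_mul _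
  · refine ae_of_all _ fun v => ?_
    have h4 : (fun t : ℝ => ‖gab1 w γ ζ a b (Function.update v a t)‖
        * ‖gab w γ ζ a b (Function.update v a t)‖)
        = fun t : ℝ => (‖Qx w γ ζ a b v‖ ^ 2 * (1 / ‖(w : ℂ) - Zx w γ ζ a v‖))
          * (1 / ‖(t : ℂ) - Zx w γ ζ a v‖) := by
      ext t
      unfold gab1 gab
      rw [Function.update_self, K.upZ, K.upQ, norm_div, norm_div]
      ring
    simp only []
    rw [h4, integral_const_mul, mul_comm]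
    have h5 : ‖Qx w γ ζ a b v‖ ^ 2 * (1 / ‖(w : ℂ) - Zx w γ ζ a v‖) ≤ ζ.im ^ (-(3 / 4) : ℝ) *
      ((‖Qx w γ ζ a b v‖ ^ (1 / 2 : ℝ) + ‖gab1 w γ ζ a b v‖ ^ (1 / 2 : ℝ)) / 2) := by
      unfold gab1
      rw [norm_div]
      apply pw2 K.hy (norm_nonneg _) (norm_pos_iff.mpr (K.nz a v w))
      exact le_trans (K.imQ a b v) (norm_ge le_rfl)
    apply mul_le_mul (K.u1 _ (K.imZ a v)) h5 (by positivity) hM

/-- The constant in the bound of the differences. -/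
def K0 (w C₁ y : ℝ) : ℝ := 2 * (C₁ * y ^ (-(1 / 16) : ℝ)) * (C₁ / y * (2 * w)) ^ (1 / 8 : ℝ)

lemma K0_nonneg (K : Kx d w γ ζ C₁) : 0 ≤ K0 w C₁ ζ.im := by
  have h1 := K.hw
  have h2 := K.hy
  have h3 := lt_of_lt_of_le zero_lt_one K.cone
  unfold K0
  positivity

lemma twoM (K : Kx d w γ ζ C₁) : 1 ≤ 2 * (C₁ * ζ.im ^ (-(1 / 16) : ℝ)) := by
  have h2 := K.hy
  have h1 : ζ.im ^ (1 / 16 : ℝ) ≤ 2 := by
    calc ζ.im ^ (1 / 16 : ℝ) ≤ 2 ^ (1 / 16 : ℝ) := Real.rpow_le_rpow h2.le K.hy2 (by norm_num)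
      _ ≤ 2 ^ (1 : ℝ) := Real.rpow_le_rpow_of_exponent_le (by norm_num) (by norm_num)
      _ = 2 := by norm_num
  have h3 : 0 < ζ.im ^ (1 / 16 : ℝ) := Real.rpow_pos_of_pos h2 _
  have h4 : 1 / 2 ≤ ζ.im ^ (-(1 / 16) : ℝ) := by
    rw [Real.rpow_neg h2.le, ← one_div]
    exact one_div_le_one_div_of_le h3 h1
  have h5 := K.cone
  nlinarith

lemma difH (K : Kx d w γ ζ C₁) {a b : Fin d → ℤ} (hne : a ≠ b) (v : (Fin d → ℤ) → ℝ)
    (hva : |v a| ≤ w) (hvb : |v b| ≤ w) :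
    ‖ha w γ ζ a v - hab w γ ζ a b v‖ ≤ K0 w C₁ ζ.im *
      ((‖Qx w γ ζ a b v‖ ^ (1 / 2 : ℝ)) ^ (1 / 4 : ℝ)
        * (‖Qx w γ ζ a b (Function.update v b w)‖ ^ (1 / 2 : ℝ)) ^ (1 / 4 : ℝ)) := by
  have hy := K.hy
  have hw := K.hw
  have hC := lt_of_lt_of_le zero_lt_one K.cone
  set q := ‖Qx w γ ζ a b v‖ with hq
  set q' := ‖Qx w γ ζ a b (Function.update v b w)‖ with hq'
  have hq0 : 0 ≤ q := norm_nonneg _
  have hq0' : 0 ≤ q' := norm_nonneg _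
  have h1 : ‖ha w γ ζ a v - hab w γ ζ a b v‖ ≤ 2 * (C₁ * ζ.im ^ (-(1 / 16) : ℝ)) := by
    have := norm_sub_le (ha w γ ζ a v) (hab w γ ζ a b v)
    linarith [K.b_ha a v, K.b_hab a b v]
  have h2 : ‖ha w γ ζ a v - hab w γ ζ a b v‖ ≤ (C₁ / ζ.im * (2 * w)) * (q * q') := by
    refine le_trans (K.u3 _ _ (K.imZ a v) (K.imZ a _)) ?_
    rw [K.difZ hne v hva hvb, norm_mul, norm_mul, norm_neg, Complex.norm_real, Real.norm_eq_abs]
    have h3 : |v b - w| ≤ 2 * w := by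
      rw [abs_le] at hvb ⊢
      constructor <;> linarith [hvb.1, hvb.2]
    rw [← hq, ← hq']
    calc C₁ / ζ.im * (|v b - w| * q' * q) ≤ C₁ / ζ.im * (2 * w * q' * q) := by gcongr
      _ = C₁ / ζ.im * (2 * w) * (q * q') := by ring
  have h3 := interp (norm_nonneg _) h1 h2 K.twoM
  refine le_trans h3 (le_of_eq ?_)
  unfold K0
  rw [Real.mul_rpow (by positivity) (by positivity), Real.mul_rpow hq0 hq0',
    ← Real.rpow_mul hq0, ← Real.rpow_mul hq0', mul_assoc (2 * (C₁ * ζ.im ^ (-(1 / 16) : ℝ)))]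
  norm_num

/-- The terms with a difference. -/
lemma T3 (hRS : S_RS) [IsProbabilityMeasure (unif w)] (K : Kx d w γ ζ C₁) {a b : Fin d → ℤ}
    (hne : a ≠ b) {ρ m c : ℝ} (hρ : 0 < ρ) (hm : 0 ≤ m)
    (h1 : ∫ v, ‖Qx w γ ζ a b v‖ ^ (1 / 2 : ℝ) ∂(Pn (unif w) (Fin d → ℤ)) ≤ ρ)
    (h2 : ∫ v, ‖Qx w γ ζ a b (Function.update v b w)‖ ^ (1 / 2 : ℝ) ∂(Pn (unif w) (Fin d → ℤ)) ≤ ρ)
    (g : ((Fin d → ℤ) → ℝ) → ℂ) (D : ((Fin d → ℤ) → ℝ) → ℝ) (hD0 : ∀ v, 0 ≤ D v)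
    (hDi : Integrable D (Pn (unif w) (Fin d → ℤ))) (hDc : ∫ v, D v ∂(Pn (unif w) (Fin d → ℤ)) ≤ c)
    (hg : ∀ v, ‖g v‖ ≤ m * D v ^ (1 / 2 : ℝ)) :
    ∫ v, ‖ha w γ ζ a v - hab w γ ζ a b v‖ * ‖g v‖ ∂(Pn (unif w) (Fin d → ℤ))
      ≤ K0 w C₁ ζ.im * (m * (ρ ^ (1 / 2 : ℝ) * (1 / 2 + 1 / 2 * c))) := by
  obtain ⟨B, hB0, hB⟩ := K.b_gab
  have i1 := sqI (w := w) (K.mQ a b) (fun v => (hB a b v).1)
  have i2 := sqI (w := w) (K.mQu a b b w) (fun v => (hB a b _).1)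
  have hK0 := K.K0_nonneg
  have h3 : ∫ v, K0 w C₁ ζ.im * (m * (ρ ^ (1 / 2 : ℝ) * (1 / 4 * (‖Qx w γ ζ a b v‖ ^ (1 / 2 : ℝ) / ρ)
      + 1 / 4 * (‖Qx w γ ζ a b (Function.update v b w)‖ ^ (1 / 2 : ℝ) / ρ) + 1 / 2 * D v)))
      ∂(Pn (unif w) (Fin d → ℤ))
      ≤ K0 w C₁ ζ.im * (m * (ρ ^ (1 / 2 : ℝ) * (1 / 2 + 1 / 2 * c))) := by
    have j1 : Integrable (fun v => 1 / 4 * (‖Qx w γ ζ a b v‖ ^ (1 / 2 : ℝ) / ρ)
      + 1 / 4 * (‖Qx w γ ζ a b (Function.update v b w)‖ ^ (1 / 2 : ℝ) / ρ))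
      (Pn (unif w) (Fin d → ℤ)) := ((i1.div_const ρ).const_mul _).add ((i2.div_const ρ).const_mul _)
    rw [integral_const_mul, integral_const_mul, integral_const_mul,
      integral_add j1 (hDi.const_mul _),
      integral_add ((i1.div_const ρ).const_mul _) ((i2.div_const ρ).const_mul _),
      integral_const_mul, integral_const_mul, integral_const_mul, integral_div, integral_div]
    apply mul_le_mul_of_nonneg_left _ hK0
    apply mul_le_mul_of_nonneg_left _ hm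
    apply mul_le_mul_of_nonneg_left _ (by positivity)
    have h4 := (div_le_one hρ).mpr h1
    have h5 := (div_le_one hρ).mpr h2
    linarith
  refine le_trans (integral_mono_of_nonneg ?_ ?_ ?_) h3
  · exact ae_of_all _ fun v => by positivity
  · exact ((((((i1.div_const ρ).const_mul _).add ((i2.div_const ρ).const_mul _)).add
        (hDi.const_mul _)).const_mul _).const_mul _).const_mul _
  · filter_upwards [ae_le hRS a, ae_le hRS b] with v hva hvb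
    have h4 := K.difH hne v hva hvb
    have h5 := pw3 (A := ‖Qx w γ ζ a b v‖ ^ (1 / 2 : ℝ))
      (B := ‖Qx w γ ζ a b (Function.update v b w)‖ ^ (1 / 2 : ℝ)) (D := D v) (ρ := ρ)
      (by positivity) (by positivity) (hD0 v) hρ
    calc ‖ha w γ ζ a v - hab w γ ζ a b v‖ * ‖g v‖
        ≤ (K0 w C₁ ζ.im * ((‖Qx w γ ζ a b v‖ ^ (1 / 2 : ℝ)) ^ (1 / 4 : ℝ)
        * (‖Qx w γ ζ a b (Function.update v b w)‖ ^ (1 / 2 : ℝ)) ^ (1 / 4 : ℝ)))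
          * (m * D v ^ (1 / 2 : ℝ)) :=
          mul_le_mul h4 (hg v) (norm_nonneg _) (by positivity)
      _ = K0 w C₁ ζ.im * (m * ((‖Qx w γ ζ a b v‖ ^ (1 / 2 : ℝ)) ^ (1 / 4 : ℝ)
        * (‖Qx w γ ζ a b (Function.update v b w)‖ ^ (1 / 2 : ℝ)) ^ (1 / 4 : ℝ)
          * D v ^ (1 / 2 : ℝ))) := by ring
      _ ≤ _ := by
        apply mul_le_mul_of_nonneg_left _ hK0
        exact mul_le_mul_of_nonneg_left h5 hm

lemma K0_eq (K : Kx d w γ ζ C₁) :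
    K0 w C₁ ζ.im = 2 * C₁ * (2 * w * C₁) ^ (1 / 8 : ℝ) * ζ.im ^ (-(3 / 16) : ℝ) := by
  have hy := K.hy
  have hw := K.hw
  have hC := lt_of_lt_of_le zero_lt_one K.cone
  unfold K0
  have h1 : C₁ / ζ.im * (2 * w) = (2 * w * C₁) * ζ.im⁻¹ := by field_simp
  rw [h1, Real.mul_rpow (by positivity) (by positivity), Real.inv_rpow hy.le,
    ← Real.rpow_neg hy.le]
  have h2 : ζ.im ^ (-(3 / 16) : ℝ) = ζ.im ^ (-(1 / 16) : ℝ) * ζ.im ^ (-(1 / 8) : ℝ) := by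
    rw [← Real.rpow_add hy]; norm_num
  rw [h2]
  ring

/-- The bound for one pair. -/
lemma pair (hRS : S_RS) [IsProbabilityMeasure (unif w)] (K : Kx d w γ ζ C₁) {a b : Fin d → ℤ}
    (hne : a ≠ b) {ρ C : ℝ} (hρ : 0 < ρ) (hρ1 : ρ ≤ 1) (hC : 1 ≤ C)
    (h1 : ∫ v, ‖Qx w γ ζ a b v‖ ^ (1 / 2 : ℝ) ∂(Pn (unif w) (Fin d → ℤ)) ≤ ρ)
    (h2 : ∫ v, ‖gab1 w γ ζ a b v‖ ^ (1 / 2 : ℝ) ∂(Pn (unif w) (Fin d → ℤ)) ≤ C * ρ)
    (h3 : ∫ v, ‖Qx w γ ζ a b (Function.update v b w)‖ ^ (1 / 2 : ℝ) ∂(Pn (unif w) (Fin d → ℤ)) ≤ ρ)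
    (h4 : ∫ v, ‖Qx w γ ζ b a v‖ ^ (1 / 2 : ℝ) ∂(Pn (unif w) (Fin d → ℤ)) ≤ ρ)
    (h5 : ∫ v, ‖Qx w γ ζ b a (Function.update v a w)‖ ^ (1 / 2 : ℝ)
      ∂(Pn (unif w) (Fin d → ℤ)) ≤ ρ) :
    ‖(∫ v, ge w γ ζ v a a * ge w γ ζ v b b ∂(Pn (unif w) (Fin d → ℤ)))
        - ∫ v, hu w (Zx w γ ζ a v) * hu w (Zx w γ ζ b v) ∂(Pn (unif w) (Fin d → ℤ))‖
      ≤ (∫ v, ‖gab w γ ζ a b v‖ * ‖gab w γ ζ a b v‖ ∂(Pn (unif w) (Fin d → ℤ)))
        + (2 * C₁ * C + 10 * C₁ ^ 2 * (2 * w * C₁) ^ (1 / 8 : ℝ)) * ζ.im ^ (-(15 / 16) : ℝ)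
          * ρ ^ (1 / 2 : ℝ) := by
  have hy := K.hy
  have hw := K.hw
  have hC1 := lt_of_lt_of_le zero_lt_one K.cone
  obtain ⟨B, hB0, hB⟩ := K.b_gab
  have hMn : 0 ≤ C₁ * ζ.im ^ (-(1 / 16) : ℝ) := by positivity
  -- integrability
  have I1 := prI (w := w) (K.m_ga a) (K.m_gu a b) (K.b_ga a) (K.b_gu a b)
  have I2 := prI (w := w) (K.m_gab a b) (K.m_gab a b) (fun v => (hB a b v).2.1)
    (fun v => (hB a b v).2.1)
  have I3 := prI (w := w) (K.m_gab1 a b) (K.m_gab a b) (fun v => (hB a b v).2.2)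
    (fun v => (hB a b v).2.1)
  have I4 := prI (w := w) (K.m_ha a) (K.m_gu a b) (K.b_ha a) (K.b_gu a b)
  have I5 := prI (w := w) (K.m_hab a b) (K.m_gu a b) (K.b_hab a b) (K.b_gu a b)
  have I6 := prI (w := w) (K.m_hab a b) (K.m_hab b a) (K.b_hab a b) (K.b_hab b a)
  have I7 := prI (w := w) (K.m_ha a) (K.m_ha b) (K.b_ha a) (K.b_ha b)
  have e1 : ∫ v, ge w γ ζ v a a * ge w γ ζ v b b ∂(Pn (unif w) (Fin d → ℤ))
      = (∫ v, ga w γ ζ a v * gu w γ ζ a b v ∂(Pn (unif w) (Fin d → ℤ)))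
        + (∫ v, gab w γ ζ a b v * gab w γ ζ a b v ∂(Pn (unif w) (Fin d → ℤ)))
        - ∫ v, gab1 w γ ζ a b v * gab w γ ζ a b v ∂(Pn (unif w) (Fin d → ℤ)) := by
    have I12 : Integrable (fun v => ga w γ ζ a v * gu w γ ζ a b v
      + gab w γ ζ a b v * gab w γ ζ a b v) (Pn (unif w) (Fin d → ℤ)) := I1.add I2
    rw [← integral_add I1 I2, ← integral_sub I12 I3]
    apply integral_congr_ae
    filter_upwards [ae_le hRS a, ae_le hRS b] with v hva hvb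
    rw [K.idI hne v hva hvb]
    ring
  have e2 : (∫ v, ge w γ ζ v a a * ge w γ ζ v b b ∂(Pn (unif w) (Fin d → ℤ)))
        - ∫ v, hu w (Zx w γ ζ a v) * hu w (Zx w γ ζ b v) ∂(Pn (unif w) (Fin d → ℤ))
      = ∫ v, ((gab w γ ζ a b v * gab w γ ζ a b v - gab1 w γ ζ a b v * gab w γ ζ a b v)
        + (ha w γ ζ a v * gu w γ ζ a b v - hab w γ ζ a b v * gu w γ ζ a b v)
        + (hab w γ ζ a b v * hab w γ ζ b a v - ha w γ ζ a v * ha w γ ζ b v))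
          ∂(Pn (unif w) (Fin d → ℤ)) := by
    have A1 : Integrable (fun v => gab w γ ζ a b v * gab w γ ζ a b v
      - gab1 w γ ζ a b v * gab w γ ζ a b v) (Pn (unif w) (Fin d → ℤ)) := I2.sub I3
    have A2 : Integrable (fun v => ha w γ ζ a v * gu w γ ζ a b v
      - hab w γ ζ a b v * gu w γ ζ a b v) (Pn (unif w) (Fin d → ℤ)) := I4.sub I5
    have A3 : Integrable (fun v => hab w γ ζ a b v * hab w γ ζ b a v
      - ha w γ ζ a v * ha w γ ζ b v) (Pn (unif w) (Fin d → ℤ)) := I6.sub I7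
    have A12 : Integrable (fun v => (gab w γ ζ a b v * gab w γ ζ a b v
      - gab1 w γ ζ a b v * gab w γ ζ a b v) + (ha w γ ζ a v * gu w γ ζ a b v
      - hab w γ ζ a b v * gu w γ ζ a b v)) (Pn (unif w) (Fin d → ℤ)) := A1.add A2
    rw [integral_add A12 A3,
      integral_add A1 A2, integral_sub I2 I3, integral_sub I4 I5,
      integral_sub I6 I7, e1, IIa hRS K hne, IIb hRS K hne]
    unfold ha
    ring
  rw [e2]
  -- the norm
  have n2 : ∀ v, ‖ha w γ ζ a v - hab w γ ζ a b v‖ ≤ 2 * (C₁ * ζ.im ^ (-(1 / 16) : ℝ)) := by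
    intro v
    have := norm_sub_le (ha w γ ζ a v) (hab w γ ζ a b v)
    linarith [K.b_ha a v, K.b_hab a b v]
  have n3 : ∀ v, ‖ha w γ ζ b v - hab w γ ζ b a v‖ ≤ 2 * (C₁ * ζ.im ^ (-(1 / 16) : ℝ)) := by
    intro v
    have := norm_sub_le (ha w γ ζ b v) (hab w γ ζ b a v)
    linarith [K.b_ha b v, K.b_hab b a v]
  have J1 := prN (w := w) (K.m_gab a b) (K.m_gab a b) (fun v => (hB a b v).2.1)
    (fun v => (hB a b v).2.1)
  have J2 := prN (w := w) (K.m_gab1 a b) (K.m_gab a b) (fun v => (hB a b v).2.2)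
    (fun v => (hB a b v).2.1)
  have J3 := prN (w := w) ((K.m_ha a).sub (K.m_hab a b)) (K.m_gu a b) n2 (K.b_gu a b)
  have J4 := prN (w := w) ((K.m_ha a).sub (K.m_hab a b)) (K.m_ha b) n2 (K.b_ha b)
  have J5 := prN (w := w) ((K.m_ha b).sub (K.m_hab b a)) (K.m_hab a b) n3 (K.b_hab a b)
  have J12 := J1.add J2
  have J34 := J3.add J4
  have J1234 := J12.add J34
  have J := J1234.add J5
  refine le_trans (norm_integral_le_of_norm_le J ?_) ?_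
  · refine ae_of_all _ fun v => ?_
    simp only [Pi.add_apply, Pi.sub_apply]
    have h0 : (gab w γ ζ a b v * gab w γ ζ a b v - gab1 w γ ζ a b v * gab w γ ζ a b v)
        + (ha w γ ζ a v * gu w γ ζ a b v - hab w γ ζ a b v * gu w γ ζ a b v)
        + (hab w γ ζ a b v * hab w γ ζ b a v - ha w γ ζ a v * ha w γ ζ b v)
        = (gab w γ ζ a b v * gab w γ ζ a b v - gab1 w γ ζ a b v * gab w γ ζ a b v)
        + ((ha w γ ζ a v - hab w γ ζ a b v) * gu w γ ζ a b v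
          - (ha w γ ζ a v - hab w γ ζ a b v) * ha w γ ζ b v)
        - (ha w γ ζ b v - hab w γ ζ b a v) * hab w γ ζ a b v := by ring
    rw [h0]
    refine le_trans (norm_sub_le _ _) ?_
    rw [norm_mul (ha w γ ζ b v - hab w γ ζ b a v)]
    gcongr
    refine le_trans (norm_add_le _ _) ?_
    gcongr
    · refine le_trans (norm_sub_le _ _) ?_
      rw [norm_mul, norm_mul]
    · refine le_trans (norm_sub_le _ _) ?_
      rw [norm_mul, norm_mul]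
  · have hK0 := K.K0_nonneg
    have b2 := K.T2 hRS a b h1 h2
    have b3 := K.T3 hRS hne (m := ζ.im ^ (-(3 / 4) : ℝ)) (c := C₁) hρ (by positivity) h1 h3
      (gu w γ ζ a b) (fun v => ‖gu w γ ζ a b v‖ ^ (1 / 2 : ℝ)) (fun v => by positivity)
      (sqI (K.m_gu a b) (K.b_gu a b)) (guI hRS K hne) (by
        intro v
        refine le_trans (interp4 hy (norm_nonneg _) (K.b_gu a b v)) (le_of_eq ?_)
        rw [← Real.rpow_mul (norm_nonneg _)]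
        norm_num)
    have b4 := K.T3 hRS hne (m := C₁ * ζ.im ^ (-(1 / 16) : ℝ)) (c := 1) hρ hMn h1 h3
      (ha w γ ζ b) (fun _ => 1) (fun v => by norm_num) (integrable_const _) (by simp) (by
        intro v
        simpa using K.b_ha b v)
    have b5 := K.T3 hRS hne.symm (m := C₁ * ζ.im ^ (-(1 / 16) : ℝ)) (c := 1) hρ hMn h4 h5
      (hab w γ ζ a b) (fun _ => 1) (fun v => by norm_num) (integrable_const _) (by simp) (by
        intro v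
        simpa using K.b_hab a b v)
    have q1 : ∫ v, ((((fun v => ‖gab w γ ζ a b v‖ * ‖gab w γ ζ a b v‖) +
        fun v => ‖gab1 w γ ζ a b v‖ * ‖gab w γ ζ a b v‖) +
        ((fun v => ‖(ha w γ ζ a - hab w γ ζ a b) v‖ * ‖gu w γ ζ a b v‖) +
        fun v => ‖(ha w γ ζ a - hab w γ ζ a b) v‖ * ‖ha w γ ζ b v‖)) +
        fun v => ‖(ha w γ ζ b - hab w γ ζ b a) v‖ * ‖hab w γ ζ a b v‖) v
          ∂(Pn (unif w) (Fin d → ℤ))
        = (∫ v, ‖gab w γ ζ a b v‖ * ‖gab w γ ζ a b v‖ ∂(Pn (unif w) (Fin d → ℤ)))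
        + (∫ v, ‖gab1 w γ ζ a b v‖ * ‖gab w γ ζ a b v‖ ∂(Pn (unif w) (Fin d → ℤ)))
        + ((∫ v, ‖ha w γ ζ a v - hab w γ ζ a b v‖ * ‖gu w γ ζ a b v‖ ∂(Pn (unif w) (Fin d → ℤ)))
        + (∫ v, ‖ha w γ ζ a v - hab w γ ζ a b v‖ * ‖ha w γ ζ b v‖ ∂(Pn (unif w) (Fin d → ℤ))))
        + ∫ v, ‖ha w γ ζ b v - hab w γ ζ b a v‖ * ‖hab w γ ζ a b v‖
          ∂(Pn (unif w) (Fin d → ℤ)) := by
      rw [integral_add' J1234 J5, integral_add' J12 J34, integral_add' J1 J2, integral_add' J3 J4]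
      rfl
    rw [q1]
    have hρs : ρ ≤ ρ ^ (1 / 2 : ℝ) := by
      calc ρ = ρ ^ (1 : ℝ) := (Real.rpow_one ρ).symm
        _ ≤ ρ ^ (1 / 2 : ℝ) := Real.rpow_le_rpow_of_exponent_ge hρ hρ1 (by norm_num)
    set R := ρ ^ (1 / 2 : ℝ) with hR
    have hR0 : 0 ≤ R := by positivity
    rw [K.K0_eq] at b3 b4 b5
    set L := (2 * w * C₁) ^ (1 / 8 : ℝ) with hL
    have hL0 : 0 ≤ L := by positivity
    have p1 : ζ.im ^ (-(1 / 16) : ℝ) * ζ.im ^ (-(3 / 4) : ℝ) ≤ 2 * ζ.im ^ (-(15 / 16) : ℝ) := by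
      rw [← Real.rpow_add hy]
      have := pwy (y := ζ.im) (s := 13 / 16) hy K.hy2 (by norm_num) (by norm_num)
      refine le_trans (le_of_eq ?_) this
      congr 1; norm_num
    have p2 : ζ.im ^ (-(3 / 16) : ℝ) * ζ.im ^ (-(3 / 4) : ℝ) = ζ.im ^ (-(15 / 16) : ℝ) := by
      rw [← Real.rpow_add hy]
      congr 1; norm_num
    have p3 : ζ.im ^ (-(3 / 16) : ℝ) * ζ.im ^ (-(1 / 16) : ℝ) ≤ 2 * ζ.im ^ (-(15 / 16) : ℝ) := by
      rw [← Real.rpow_add hy]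
      have := pwy (y := ζ.im) (s := 1 / 4) hy K.hy2 (by norm_num) (by norm_num)
      refine le_trans (le_of_eq ?_) this
      congr 1; norm_num
    set Y := ζ.im ^ (-(15 / 16) : ℝ) with hY
    have hY0 : 0 ≤ Y := by positivity
    set y1 := ζ.im ^ (-(1 / 16) : ℝ) with hy1
    set y4 := ζ.im ^ (-(3 / 4) : ℝ) with hy4
    set y3 := ζ.im ^ (-(3 / 16) : ℝ) with hy3
    have z1 : 0 ≤ y1 := by positivity
    have z4 : 0 ≤ y4 := by positivity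
    have z3 : 0 ≤ y3 := by positivity
    have c2 : C₁ * y1 * (y4 * ((ρ + C * ρ) / 2)) ≤ 2 * C₁ * C * Y * R := by
      have k1 : (ρ + C * ρ) / 2 ≤ C * R := by nlinarith
      calc C₁ * y1 * (y4 * ((ρ + C * ρ) / 2)) = C₁ * (y1 * y4) * ((ρ + C * ρ) / 2) := by ring
        _ ≤ C₁ * (2 * Y) * (C * R) := by gcongr
        _ = _ := by ring
    have c3 : 2 * C₁ * L * y3 * (y4 * (R * (1 / 2 + 1 / 2 * C₁))) ≤ 2 * C₁ ^ 2 * L * Y * R := by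
      have k1 : 1 / 2 + 1 / 2 * C₁ ≤ C₁ := by linarith [K.cone]
      calc 2 * C₁ * L * y3 * (y4 * (R * (1 / 2 + 1 / 2 * C₁)))
          = 2 * C₁ * L * (y3 * y4) * (R * (1 / 2 + 1 / 2 * C₁)) := by ring
        _ ≤ 2 * C₁ * L * Y * (R * C₁) := by rw [p2]; gcongr
        _ = _ := by ring
    have c4 : 2 * C₁ * L * y3 * (C₁ * y1 * (R * (1 / 2 + 1 / 2 * 1))) ≤ 4 * C₁ ^ 2 * L * Y * R := by
      calc 2 * C₁ * L * y3 * (C₁ * y1 * (R * (1 / 2 + 1 / 2 * 1)))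
          = 2 * C₁ ^ 2 * L * (y3 * y1) * R := by ring
        _ ≤ 2 * C₁ ^ 2 * L * (2 * Y) * R := by gcongr
        _ = _ := by ring
    nlinarith [b2, b3, b4, b5, c2, c3, c4]

end Kx

lemma nd_symm {d : ℕ} (x a : Fin d → ℤ) : nd x a = nd a x := by
  unfold nd
  apply Finset.sum_congr rfl
  intro i _
  rw [← Int.natAbs_neg]
  congr 1
  ring

lemma pow_half {r : ℝ} (hr : 0 ≤ r) (n : ℕ) : (r ^ n) ^ (1 / 2 : ℝ) = (r ^ (1 / 2 : ℝ)) ^ n := by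
  rw [← Real.rpow_natCast, ← Real.rpow_natCast, ← Real.rpow_mul hr, ← Real.rpow_mul hr, mul_comm]

/-- Covariances of the diagonal elements. -/
theorem main : S_RK → S_RS → S_U1 → S_FM → S_GS → S_KB1 → S_KB3 := by
  intro hRK hRS hU1 hFM hGS hKB1 d w θ inst hw hθ hθ1
  obtain ⟨_, C₁, hC₁, -, u1, -, u2, u3, -⟩ := hU1 w hw
  obtain ⟨C, γ₁, hC, hγ₁, fm⟩ := hFM d w θ hw hθ hθ1
  obtain ⟨C₂, hC₂, gs⟩ := hGS d
  obtain ⟨C₃, γ₂, hC₃, hγ₂, kb⟩ := hKB1 d w θ hw hθ hθ1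
  have hC0 : 0 < C := lt_of_lt_of_le zero_lt_one hC
  have hC10 : 0 < C₁ := lt_of_lt_of_le zero_lt_one hC₁
  have hC20 : 0 < C₂ := lt_of_lt_of_le zero_lt_one hC₂
  set S₀ := 2 * C₁ * C + 10 * C₁ ^ 2 * (2 * w * C₁) ^ (1 / 8 : ℝ) with hS₀
  have hS₀0 : 0 ≤ S₀ := by positivity
  refine ⟨C₃ + C₂ * S₀, min (min γ₁ γ₂) (1 / (16 * C ^ 2)), ?_, ?_, ?_⟩
  · have : 0 ≤ C₂ * S₀ := by positivity
    linarith
  · exact lt_min (lt_min hγ₁ hγ₂) (by positivity)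
  intro γ hγ hγ0 ζ hre hy hy2 a
  have g1 : γ ≤ γ₁ := le_trans hγ0 (le_trans (min_le_left _ _) (min_le_left _ _))
  have g2 : γ ≤ γ₂ := le_trans hγ0 (le_trans (min_le_left _ _) (min_le_right _ _))
  have g3 : γ ≤ 1 / (16 * C ^ 2) := le_trans hγ0 (min_le_right _ _)
  have K : Kx d w γ ζ C₁ := mkKx hRK hw hγ.le hy hy2 hC₁ u1 u2 u3
  have FM := fm γ hγ g1 ζ hre hy hy2
  have KB := (kb γ hγ g2 ζ hre hy hy2 a).2.2
  set r := C * γ ^ (1 / 2 : ℝ) with hr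
  have hr0 : 0 < r := by positivity
  have hr4 : r ≤ 1 / 4 := by
    have h1 : γ ^ (1 / 2 : ℝ) ≤ 1 / (4 * C) := by
      calc γ ^ (1 / 2 : ℝ) ≤ (1 / (16 * C ^ 2)) ^ (1 / 2 : ℝ) :=
            Real.rpow_le_rpow hγ.le g3 (by norm_num)
        _ = 1 / (4 * C) := by
          rw [← Real.sqrt_eq_rpow]
          rw [show 1 / (16 * C ^ 2) = (1 / (4 * C)) ^ 2 by field_simp; norm_num]
          exact Real.sqrt_sq (by positivity)
    calc r ≤ C * (1 / (4 * C)) := mul_le_mul_of_nonneg_left h1 hC0.le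
      _ = 1 / 4 := by field_simp
  set s := r ^ (1 / 2 : ℝ) with hs
  have hs0 : 0 ≤ s := by positivity
  have hs2 : s ≤ 1 / 2 := by
    calc s ≤ (1 / 4) ^ (1 / 2 : ℝ) := Real.rpow_le_rpow hr0.le hr4 (by norm_num)
      _ = 1 / 2 := by
        rw [← Real.sqrt_eq_rpow, show (1 / 4 : ℝ) = (1 / 2) ^ 2 by norm_num]
        exact Real.sqrt_sq (by norm_num)
  obtain ⟨gs1, gs2, -⟩ := gs s hs0 hs2 a
  set Y := ζ.im ^ (-(15 / 16) : ℝ) with hY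
  have hY0 : 0 ≤ Y := by positivity
  have key : ∀ b : Fin d → ℤ, (if b = a then 0 else ENNReal.ofReal
        ‖(∫ v, ge w γ ζ v a a * ge w γ ζ v b b ∂(Pn (unif w) (Fin d → ℤ)))
          - ∫ v, hu w (Zx w γ ζ a v) * hu w (Zx w γ ζ b v) ∂(Pn (unif w) (Fin d → ℤ))‖)
      ≤ (if b = a then 0 else
        ∫⁻ v, ENNReal.ofReal (‖ge w γ ζ v b a‖ ^ 2) ∂(Pn (unif w) (Fin d → ℤ)))
        + ENNReal.ofReal (S₀ * Y * s ^ nd b a) := by
    intro b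
    by_cases hb : b = a
    · rw [if_pos hb, if_pos hb]
      exact zero_le
    rw [if_neg hb, if_neg hb]
    have hne : a ≠ b := fun h => hb h.symm
    have f1 : ∫ v, ‖Qx w γ ζ a b v‖ ^ (1 / 2 : ℝ) ∂(Pn (unif w) (Fin d → ℤ)) ≤ r ^ nd b a := by
      have h := (FM a b a).1
      rw [nd_symm a b] at h
      refine le_trans (le_of_eq ?_) h
      congr 1
      ext v
      rw [K.upQ]
    have f2 : ∫ v, ‖Kx.gab1 w γ ζ a b v‖ ^ (1 / 2 : ℝ) ∂(Pn (unif w) (Fin d → ℤ))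
        ≤ C * r ^ nd b a := by
      have h := (FM a b a).2.1
      rw [nd_symm a b] at h
      refine le_trans (le_of_eq ?_) h
      congr 1
      ext v
      rw [K.ge_up]
    have f3 : ∫ v, ‖Qx w γ ζ a b (Function.update v b w)‖ ^ (1 / 2 : ℝ)
        ∂(Pn (unif w) (Fin d → ℤ)) ≤ r ^ nd b a := by
      have h := (FM a b b).1
      rw [nd_symm a b] at h
      exact h
    have f4 : ∫ v, ‖Qx w γ ζ b a v‖ ^ (1 / 2 : ℝ) ∂(Pn (unif w) (Fin d → ℤ)) ≤ r ^ nd b a := by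
      have h := (FM b a b).1
      refine le_trans (le_of_eq ?_) h
      congr 1
      ext v
      rw [K.upQ]
    have f5 : ∫ v, ‖Qx w γ ζ b a (Function.update v a w)‖ ^ (1 / 2 : ℝ)
        ∂(Pn (unif w) (Fin d → ℤ)) ≤ r ^ nd b a := (FM b a a).1
    have hp := K.pair hRS hne (ρ := r ^ nd b a) (C := C) (by positivity)
      (pow_le_one₀ hr0.le (by linarith)) hC f1 f2 f3 f4 f5
    rw [pow_half hr0.le] at hp
    refine le_trans (ENNReal.ofReal_le_ofReal hp) ?_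
    rw [ENNReal.ofReal_add (integral_nonneg fun v => by positivity) (by positivity)]
    apply add_le_add _ le_rfl
    obtain ⟨B, hB0, hB⟩ := K.b_gab
    have J1 := Kx.prN (w := w) (K.m_gab a b) (K.m_gab a b) (fun v => (hB a b v).2.1)
      (fun v => (hB a b v).2.1)
    rw [ofReal_integral_eq_lintegral_ofReal J1 (ae_of_all _ fun v => by positivity)]
    apply le_of_eq
    apply lintegral_congr_ae
    filter_upwards [Kx.ae_le hRS a] with v hva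
    rw [K.sym v b a, K.ge_aa a b v hva, sq]
  refine le_trans (ENNReal.tsum_le_tsum key) ?_
  rw [ENNReal.tsum_add]
  have k2 : ∑' b : Fin d → ℤ, ENNReal.ofReal (S₀ * Y * s ^ nd b a)
      ≤ ENNReal.ofReal (S₀ * Y * C₂) := by
    rw [← ENNReal.ofReal_tsum_of_nonneg (fun b => by positivity) (gs1.mul_left _), tsum_mul_left]
    apply ENNReal.ofReal_le_ofReal
    exact mul_le_mul_of_nonneg_left gs2 (by positivity)
  refine le_trans (add_le_add KB k2) ?_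
  rw [← ENNReal.ofReal_add (by positivity) (by positivity)]
  apply ENNReal.ofReal_le_ofReal
  have m1 : 0 ≤ γ ^ (1 / 2 : ℝ) / ζ.im := by positivity
  have m2 : C₃ * γ ^ (1 / 2 : ℝ) / ζ.im = C₃ * (γ ^ (1 / 2 : ℝ) / ζ.im) := by ring
  rw [m2]
  have m3 : 0 ≤ C₃ * Y := by positivity
  have m4 : 0 ≤ C₂ * S₀ * (γ ^ (1 / 2 : ℝ) / ζ.im) := by positivity
  nlinarith [m3, m4]

end

end Pool.Agent.N723.SD
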